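import Mathlib

/-!
Greedy construction of rich families of slot assignments `Fin L → Fin q` sharing pairwise at most
one value.
-/

namespace Pool.Agent.K3h91.OSC

open Finset

/-- the ranges of `f` and `g` share at most one element -/
def Compat {L q : ℕ} (f g : Fin L → Fin q) : Prop := (Set.range f ∩ Set.range g).Subsingleton

lemma Compat.symm {L q : ℕ} {f g : Fin L → Fin q} (h : Compat f g) : Compat g f := by
  unfold Compat at *; rwa [Set.inter_comm]

lemma card_pair {L q : ℕ} (l1 l2 : Fin L) (h : l1 ≠ l2) (D : Finset (Fin q × Fin q)) :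
    q ^ 2 * (univ.filter (fun f : Fin L → Fin q => (f l1, f l2) ∈ D)).card ≤ D.card * q ^ L := by
  set F := univ.filter (fun f : Fin L → Fin q => (f l1, f l2) ∈ D) with hF
  have h1 : ((univ : Finset (Fin q × Fin q)) ×ˢ F).card ≤
      (D ×ˢ (univ : Finset (Fin L → Fin q))).card := by
    refine card_le_card_of_injOn
      (fun p => ((p.2 l1, p.2 l2), Function.update (Function.update p.2 l1 p.1.1) l2 p.1.2)) ?_ ?_
    · intro p hp
      rw [mem_coe, mem_product] at hp
      rw [mem_coe, mem_product]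
      exact ⟨(mem_filter.1 hp.2).2, mem_univ _⟩
    · rintro ⟨⟨c, d⟩, f⟩ _ ⟨⟨c', d'⟩, f'⟩ _ heq
      simp only [Prod.mk.injEq] at heq
      obtain ⟨⟨h2, h3⟩, h4⟩ := heq
      have e1 : d = d' := by
        have := congrFun h4 l2
        simpa using this
      have e2 : c = c' := by
        have := congrFun h4 l1
        simpa [Function.update_of_ne h] using this
      have e3 : f = f' := by
        funext l
        by_cases hl1 : l = l1
        · rw [hl1, h2]
        by_cases hl2 : l = l2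
        · rw [hl2, h3]
        have := congrFun h4 l
        simpa [Function.update_of_ne hl1, Function.update_of_ne hl2] using this
      rw [e1, e2, e3]
  rw [card_product, card_product] at h1
  simpa [pow_two] using h1

/-- bad value pairs -/
def pairsBad {L q : ℕ} (U : Finset (Fin L → Fin q)) : Finset (Fin q × Fin q) :=
  (univ : Finset (Fin q)).image (fun i => (i, i)) ∪
    U.biUnion (fun u => (univ : Finset (Fin L × Fin L)).image (fun m => (u m.1, u m.2)))

lemma card_pairsBad {L q : ℕ} (U : Finset (Fin L → Fin q)) :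
    (pairsBad U).card ≤ q + U.card * L ^ 2 := by
  unfold pairsBad
  refine (card_union_le _ _).trans ?_
  refine Nat.add_le_add (card_image_le.trans (by simp)) ?_
  refine card_biUnion_le.trans ?_
  calc ∑ u ∈ U, ((univ : Finset (Fin L × Fin L)).image (fun m => (u m.1, u m.2))).card
      ≤ ∑ u ∈ U, L ^ 2 := sum_le_sum fun u _ => card_image_le.trans (by simp [pow_two])
    _ = U.card * L ^ 2 := by rw [sum_const, smul_eq_mul]

/-- functions that are not injective or not compatible with `U` -/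
def bad {L q : ℕ} (U : Finset (Fin L → Fin q)) : Finset (Fin L → Fin q) :=
  (univ.filter (fun m : Fin L × Fin L => m.1 ≠ m.2)).biUnion
    (fun m => univ.filter (fun f => (f m.1, f m.2) ∈ pairsBad U))

lemma card_bad {L q : ℕ} (U : Finset (Fin L → Fin q)) :
    q ^ 2 * (bad U).card ≤ L ^ 2 * (q + U.card * L ^ 2) * q ^ L := by
  unfold bad
  calc q ^ 2 * ((univ.filter (fun m : Fin L × Fin L => m.1 ≠ m.2)).biUnion
    (fun m => univ.filter (fun f : Fin L → Fin q => (f m.1, f m.2) ∈ pairsBad U))).card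
      ≤ q ^ 2 * ∑ m ∈ univ.filter (fun m : Fin L × Fin L => m.1 ≠ m.2),
        (univ.filter (fun f : Fin L → Fin q => (f m.1, f m.2) ∈ pairsBad U)).card :=
        Nat.mul_le_mul_left _ card_biUnion_le
    _ = ∑ m ∈ univ.filter (fun m : Fin L × Fin L => m.1 ≠ m.2), q ^ 2 *
        (univ.filter (fun f : Fin L → Fin q => (f m.1, f m.2) ∈ pairsBad U)).card := by
        rw [mul_sum]
    _ ≤ ∑ m ∈ univ.filter (fun m : Fin L × Fin L => m.1 ≠ m.2),
        (q + U.card * L ^ 2) * q ^ L := by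
        refine sum_le_sum fun m hm => ?_
        refine (card_pair m.1 m.2 (mem_filter.1 hm).2 _).trans ?_
        exact Nat.mul_le_mul_right _ (card_pairsBad U)
    _ ≤ L ^ 2 * ((q + U.card * L ^ 2) * q ^ L) := by
        rw [sum_const, smul_eq_mul]
        refine Nat.mul_le_mul_right _ ((card_filter_le _ _).trans (by simp [pow_two]))
    _ = L ^ 2 * (q + U.card * L ^ 2) * q ^ L := by ring

lemma not_bad {L q : ℕ} {U : Finset (Fin L → Fin q)} {f : Fin L → Fin q} (hf : f ∉ bad U) :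
    Function.Injective f ∧ ∀ u ∈ U, Compat f u := by
  have key : ∀ l1 l2, (f l1, f l2) ∈ pairsBad U → l1 = l2 := by
    intro l1 l2 h
    by_contra hne
    apply hf
    unfold bad
    rw [mem_biUnion]
    exact ⟨(l1, l2), by simp [hne], by simpa using h⟩
  constructor
  · intro l1 l2 h
    apply key
    unfold pairsBad
    rw [mem_union]
    left
    rw [mem_image]
    exact ⟨f l1, mem_univ _, by rw [h]⟩
  · rintro u hu a ⟨⟨l1, rfl⟩, ⟨m1, hm1⟩⟩ b ⟨⟨l2, rfl⟩, ⟨m2, hm2⟩⟩
    rw [key l1 l2]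
    unfold pairsBad
    rw [mem_union]
    right
    rw [mem_biUnion]
    refine ⟨u, hu, ?_⟩
    rw [mem_image]
    exact ⟨(m1, m2), mem_univ _, by simp [hm1, hm2]⟩

/-- functions avoiding the pattern `B` -/
def av {L q : ℕ} (B : Fin L → Finset (Fin q)) : Finset (Fin L → Fin q) :=
  univ.filter (fun f => ∀ l, f l ∉ B l)

lemma card_av {L q : ℕ} {B : Fin L → Finset (Fin q)} (hB : ∀ l, 2 * (B l).card ≤ q) :
    q ^ L ≤ 2 ^ L * (av B).card := by
  have h1 : av B = Fintype.piFinset (fun l => (B l)ᶜ) := by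
    ext f
    simp [av, Fintype.mem_piFinset]
  rw [h1, Fintype.card_piFinset]
  have h2 : ∀ l, q ≤ 2 * ((B l)ᶜ).card := by
    intro l
    rw [card_compl, Fintype.card_fin]
    have := hB l
    omega
  calc q ^ L = ∏ _l : Fin L, q := by simp
    _ ≤ ∏ l : Fin L, (2 * ((B l)ᶜ).card) := prod_le_prod (fun _ _ => Nat.zero_le _) fun l _ => h2 l
    _ = 2 ^ L * ∏ l : Fin L, ((B l)ᶜ).card := by
        rw [prod_mul_distrib]; simp

lemma card_av_sdiff {L q : ℕ} (hq : 0 < q) {U : Finset (Fin L → Fin q)}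
    (hU : 2 * 2 ^ L * (L ^ 2 * (q + U.card * L ^ 2)) ≤ q ^ 2)
    {B : Fin L → Finset (Fin q)} (hB : ∀ l, 2 * (B l).card ≤ q) :
    q ^ L ≤ 2 * 2 ^ L * (av B \ bad U).card := by
  have h1 := card_av hB
  have h2 : 2 * 2 ^ L * (bad U).card ≤ q ^ L := by
    have hq2 : 0 < q ^ 2 := by positivity
    refine Nat.le_of_mul_le_mul_left ?_ hq2
    calc q ^ 2 * (2 * 2 ^ L * (bad U).card) = 2 * 2 ^ L * (q ^ 2 * (bad U).card) := by ring
      _ ≤ 2 * 2 ^ L * (L ^ 2 * (q + U.card * L ^ 2) * q ^ L) :=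
          Nat.mul_le_mul_left _ (card_bad U)
      _ = 2 * 2 ^ L * (L ^ 2 * (q + U.card * L ^ 2)) * q ^ L := by ring
      _ ≤ q ^ 2 * q ^ L := Nat.mul_le_mul_right _ hU
  have h3 : (av B).card ≤ (av B \ bad U).card + (bad U).card := by
    have := card_le_card_sdiff_add_card (s := av B) (t := bad U)
    omega
  have h4 : 2 * 2 ^ L * (av B).card ≤
      2 * 2 ^ L * (av B \ bad U).card + 2 * 2 ^ L * (bad U).card := by
    rw [← mul_add]; exact Nat.mul_le_mul_left _ h3
  have h5 : 2 * q ^ L ≤ 2 * 2 ^ L * (av B).card := by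
    rw [mul_assoc]; exact Nat.mul_le_mul_left _ h1
  omega

/-- one greedy step -/
lemma greedy_step {L q : ℕ} (hq : 0 < q) {U : Finset (Fin L → Fin q)}
    (hU : 2 * 2 ^ L * (L ^ 2 * (q + U.card * L ^ 2)) ≤ q ^ 2)
    (P : Finset (Fin L → Finset (Fin q))) (hP : ∀ B ∈ P, ∀ l, 2 * (B l).card ≤ q)
    (hne : P.Nonempty) :
    ∃ f, f ∉ bad U ∧ P.card ≤ 2 * 2 ^ L * (P.filter (fun B => f ∈ av B)).card := by
  by_contra hcon
  push Not at hcon
  have h1 : ∑ f ∈ (bad U)ᶜ, (P.filter (fun B => f ∈ av B)).card =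
      ∑ B ∈ P, (av B \ bad U).card := by
    have h := sum_card_bipartiteAbove_eq_sum_card_bipartiteBelow (s := (bad U)ᶜ) (t := P)
      (fun (f : Fin L → Fin q) (B : Fin L → Finset (Fin q)) => f ∈ av B)
    unfold bipartiteAbove bipartiteBelow at h
    rw [h]
    refine sum_congr rfl fun B _ => ?_
    congr 1
    ext f
    simp only [mem_filter, mem_compl, mem_sdiff]
    tauto
  have h2 : P.card * q ^ L ≤ 2 * 2 ^ L * ∑ f ∈ (bad U)ᶜ, (P.filter (fun B => f ∈ av B)).card := by
    rw [h1, mul_sum]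
    calc P.card * q ^ L = ∑ B ∈ P, q ^ L := by rw [sum_const, smul_eq_mul]
      _ ≤ _ := sum_le_sum fun B hB => card_av_sdiff hq hU (hP B hB)
  have h3 : ((bad U)ᶜ : Finset (Fin L → Fin q)).Nonempty := by
    obtain ⟨B, hB⟩ := hne
    have h4 := card_av_sdiff hq hU (hP B hB)
    have h5 : 0 < q ^ L := by positivity
    have h6 : 0 < (av B \ bad U).card := by
      by_contra h
      have h7 : (av B \ bad U).card = 0 := by omega
      rw [h7] at h4
      omega
    obtain ⟨f, hf⟩ := card_pos.1 h6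
    exact ⟨f, by rw [mem_compl]; exact (mem_sdiff.1 hf).2⟩
  have h8 : 2 * 2 ^ L * ∑ f ∈ (bad U)ᶜ, (P.filter (fun B => f ∈ av B)).card < P.card * q ^ L := by
    rw [mul_sum]
    calc ∑ f ∈ (bad U)ᶜ, 2 * 2 ^ L * (P.filter (fun B => f ∈ av B)).card
        < ∑ f ∈ (bad U)ᶜ, P.card :=
          sum_lt_sum_of_nonempty h3 fun f hf => hcon f (mem_compl.1 hf)
      _ = (bad U)ᶜ.card * P.card := by rw [sum_const, smul_eq_mul]
      _ ≤ q ^ L * P.card := by
          refine Nat.mul_le_mul_right _ ((card_le_univ _).trans (by simp))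
      _ = P.card * q ^ L := by ring
  omega

/-- all the light patterns -/
def Pat (L q : ℕ) : Finset (Fin L → Finset (Fin q)) :=
  univ.filter (fun B => ∀ l, 2 * (B l).card ≤ q)

lemma card_Pat (L q : ℕ) : (Pat L q).card ≤ 2 ^ (q * L) := by
  refine (card_filter_le _ _).trans ?_
  simp [← pow_mul]

lemma greedy {L q : ℕ} (hq : 0 < q) (k : ℕ) (U : Finset (Fin L → Fin q))
    (hU : 2 * 2 ^ L * (L ^ 2 * (q + (U.card + k) * L ^ 2)) ≤ q ^ 2) :
    ∃ V : Finset (Fin L → Fin q), V.card ≤ k ∧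
      (∀ f ∈ V, Function.Injective f ∧ ∀ u ∈ U, Compat f u) ∧
      (∀ f ∈ V, ∀ g ∈ V, f ≠ g → Compat f g) ∧
      ((Pat L q).filter (fun B => ∀ f ∈ V, f ∉ av B)).card * (2 * 2 ^ L) ^ k ≤
        (Pat L q).card * (2 * 2 ^ L - 1) ^ k := by
  induction k with
  | zero =>
    refine ⟨∅, by simp, by simp, by simp, ?_⟩
    simp
  | succ k ih =>
    obtain ⟨V, hV1, hV2, hV3, hV4⟩ := ih (le_trans (by gcongr; omega) hU)
    set P := (Pat L q).filter (fun B => ∀ f ∈ V, f ∉ av B) with hPdef
    by_cases hne : P.Nonempty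
    · have hUV : (U ∪ V).card ≤ U.card + (k + 1) := (card_union_le _ _).trans (by omega)
      obtain ⟨f, hf1, hf2⟩ := greedy_step hq (U := U ∪ V)
        (le_trans (by gcongr) hU) P
        (fun B hB => (mem_filter.1 (mem_filter.1 hB).1).2) hne
      obtain ⟨hfi, hfc⟩ := not_bad hf1
      refine ⟨insert f V, (card_insert_le _ _).trans (by omega), ?_, ?_, ?_⟩
      · intro g hg
        rw [mem_insert] at hg
        rcases hg with rfl | hg
        · exact ⟨hfi, fun u hu => hfc u (mem_union_left _ hu)⟩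
        · exact hV2 g hg
      · intro g hg g' hg' hne'
        rw [mem_insert] at hg hg'
        rcases hg with rfl | hg <;> rcases hg' with rfl | hg'
        · exact absurd rfl hne'
        · exact hfc g' (mem_union_right _ hg')
        · exact (hfc g (mem_union_right _ hg)).symm
        · exact hV3 g hg g' hg' hne'
      · have h1 : (Pat L q).filter (fun B => ∀ g ∈ insert f V, g ∉ av B) =
            P.filter (fun B => f ∉ av B) := by
          rw [hPdef, filter_filter]
          ext B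
          simp only [mem_filter, mem_insert, forall_eq_or_imp]
          tauto
        rw [h1]
        have h2 : (P.filter (fun B => f ∈ av B)).card + (P.filter (fun B => f ∉ av B)).card =
            P.card := card_filter_add_card_filter_not _
        set a := 2 * 2 ^ L with ha
        have ha1 : 1 ≤ a := by rw [ha]; have := Nat.one_le_two_pow (n := L); omega
        set r := (P.filter (fun B => f ∉ av B)).card with hr
        have h3 : r * a ≤ P.card * (a - 1) := by
          zify [ha1]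
          zify at h2 hf2
          nlinarith
        calc r * a ^ (k + 1) = r * a * a ^ k := by ring
          _ ≤ P.card * (a - 1) * a ^ k := Nat.mul_le_mul_right _ h3
          _ = P.card * a ^ k * (a - 1) := by ring
          _ ≤ (Pat L q).card * (a - 1) ^ k * (a - 1) := Nat.mul_le_mul_right _ hV4
          _ = (Pat L q).card * (a - 1) ^ (k + 1) := by ring
    · refine ⟨V, by omega, hV2, hV3, ?_⟩
      rw [not_nonempty_iff_eq_empty] at hne
      rw [← hPdef, hne]
      simp

lemma pow_gap (a m : ℕ) (ha : 2 ≤ a) (hm : 1 ≤ m) : 2 ^ m * (a - 1) ^ (a * m) < a ^ (a * m) := by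
  have h1 : 2 * (a - 1) ^ a < a ^ a := by
    obtain ⟨b, rfl⟩ : ∃ b, a = b + 1 := ⟨a - 1, by omega⟩
    have hb : 1 ≤ b := by omega
    simp only [Nat.add_sub_cancel]
    have hbr : (b : ℝ) ≠ 0 := by positivity
    have h2 : (1 : ℝ) + ((b + 1 : ℕ) : ℝ) * (1 / b) ≤ (1 + 1 / (b : ℝ)) ^ (b + 1) :=
      one_add_mul_le_pow (by have : (0 : ℝ) ≤ 1 / (b : ℝ) := by positivity
                             linarith) _
    have h3 : (2 : ℝ) < (1 + 1 / (b : ℝ)) ^ (b + 1) := by
      refine lt_of_lt_of_le ?_ h2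
      push_cast
      have : ((b : ℝ) + 1) * (1 / b) = 1 + 1 / b := by field_simp
      rw [this]
      have : (0 : ℝ) < 1 / (b : ℝ) := by positivity
      linarith
    have h4 : (2 : ℝ) * (b : ℝ) ^ (b + 1) < ((b : ℝ) + 1) ^ (b + 1) := by
      have h5 : ((b : ℝ) + 1) ^ (b + 1) = (1 + 1 / (b : ℝ)) ^ (b + 1) * (b : ℝ) ^ (b + 1) := by
        rw [← mul_pow]; congr 1; field_simp
      rw [h5]
      have h6 : (0 : ℝ) < (b : ℝ) ^ (b + 1) := by positivity
      exact mul_lt_mul_of_pos_right h3 h6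
    exact_mod_cast h4
  calc 2 ^ m * (a - 1) ^ (a * m) = (2 * (a - 1) ^ a) ^ m := by rw [mul_pow, pow_mul]
    _ < (a ^ a) ^ m := Nat.pow_lt_pow_left h1 (by omega)
    _ = a ^ (a * m) := by rw [pow_mul]

lemma rich_one {L q : ℕ} (hq : 0 < q) (hL : 0 < L) (U : Finset (Fin L → Fin q))
    (hU : 2 * 2 ^ L * (L ^ 2 * (q + (U.card + 2 * 2 ^ L * (q * L)) * L ^ 2)) ≤ q ^ 2) :
    ∃ V : Finset (Fin L → Fin q), V.card ≤ 2 * 2 ^ L * (q * L) ∧
      (∀ f ∈ V, Function.Injective f ∧ ∀ u ∈ U, Compat f u) ∧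
      (∀ f ∈ V, ∀ g ∈ V, f ≠ g → Compat f g) ∧
      (∀ B : Fin L → Finset (Fin q), (∀ l, 2 * (B l).card ≤ q) → ∃ f ∈ V, ∀ l, f l ∉ B l) := by
  obtain ⟨V, h1, h2, h3, h4⟩ := greedy hq (2 * 2 ^ L * (q * L)) U hU
  refine ⟨V, h1, h2, h3, ?_⟩
  intro B hB
  by_contra hcon
  push Not at hcon
  have h5 : 1 ≤ ((Pat L q).filter (fun B => ∀ f ∈ V, f ∉ av B)).card := by
    rw [Nat.succ_le_iff, card_pos]
    refine ⟨B, mem_filter.2 ⟨mem_filter.2 ⟨mem_univ _, hB⟩, ?_⟩⟩
    intro f hf hfa
    obtain ⟨l, hl⟩ := hcon f hf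
    exact (mem_filter.1 hfa).2 l hl
  have h6 : (2 * 2 ^ L) ^ (2 * 2 ^ L * (q * L)) ≤
      2 ^ (q * L) * (2 * 2 ^ L - 1) ^ (2 * 2 ^ L * (q * L)) := by
    calc (2 * 2 ^ L) ^ (2 * 2 ^ L * (q * L))
        = 1 * (2 * 2 ^ L) ^ (2 * 2 ^ L * (q * L)) := by ring
      _ ≤ _ := Nat.mul_le_mul_right _ h5
      _ ≤ _ := h4
      _ ≤ _ := Nat.mul_le_mul_right _ (card_Pat L q)
  have h7 := pow_gap (2 * 2 ^ L) (q * L) (by have := Nat.one_le_two_pow (n := L); omega)
    (Nat.mul_pos hq hL)
  omega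

lemma rich_all {γ : Type*} [DecidableEq γ] {L q T : ℕ} (hq : 0 < q) (hL : 0 < L)
    (hT : 2 * 2 ^ L * (L ^ 2 * (q + T * (2 * 2 ^ L * (q * L)) * L ^ 2)) ≤ q ^ 2)
    (C : Finset γ) (hC : C.card ≤ T) :
    ∃ V : γ → Finset (Fin L → Fin q),
      (∀ c ∈ C, (V c).card ≤ 2 * 2 ^ L * (q * L)) ∧
      (∀ c ∈ C, ∀ f ∈ V c, Function.Injective f) ∧
      (∀ c ∈ C, ∀ B : Fin L → Finset (Fin q), (∀ l, 2 * (B l).card ≤ q) →
        ∃ f ∈ V c, ∀ l, f l ∉ B l) ∧
      (∀ c ∈ C, ∀ c' ∈ C, ∀ f ∈ V c, ∀ f' ∈ V c', (c, f) ≠ (c', f') → Compat f f') := by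
  induction C using Finset.induction_on with
  | empty => exact ⟨fun _ => ∅, by simp, by simp, by simp, by simp⟩
  | insert c0 C hc0 ih =>
    rw [card_insert_of_notMem hc0] at hC
    obtain ⟨V, hV1, hV2, hV3, hV4⟩ := ih (by omega)
    have hUc : (C.biUnion V).card + 2 * 2 ^ L * (q * L) ≤ T * (2 * 2 ^ L * (q * L)) := by
      have h1 : (C.biUnion V).card ≤ C.card * (2 * 2 ^ L * (q * L)) := by
        refine card_biUnion_le.trans ((sum_le_sum hV1).trans ?_)
        rw [sum_const, smul_eq_mul]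
      calc (C.biUnion V).card + 2 * 2 ^ L * (q * L)
          ≤ C.card * (2 * 2 ^ L * (q * L)) + 2 * 2 ^ L * (q * L) := by gcongr
        _ = (C.card + 1) * (2 * 2 ^ L * (q * L)) := by ring
        _ ≤ T * (2 * 2 ^ L * (q * L)) := Nat.mul_le_mul_right _ hC
    obtain ⟨W, hW1, hW2, hW3, hW4⟩ := rich_one hq hL (C.biUnion V)
      (le_trans (by gcongr) hT)
    have hupd : ∀ c ∈ C, Function.update V c0 W c = V c := by
      intro c hc
      rw [Function.update_of_ne]
      rintro rfl
      exact hc0 hc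
    refine ⟨Function.update V c0 W, ?_, ?_, ?_, ?_⟩
    · intro c hc
      rw [mem_insert] at hc
      rcases hc with rfl | hc
      · rw [Function.update_self]; exact hW1
      · rw [hupd c hc]; exact hV1 c hc
    · intro c hc
      rw [mem_insert] at hc
      rcases hc with rfl | hc
      · rw [Function.update_self]; exact fun f hf => (hW2 f hf).1
      · rw [hupd c hc]; exact hV2 c hc
    · intro c hc
      rw [mem_insert] at hc
      rcases hc with rfl | hc
      · rw [Function.update_self]; exact hW4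
      · rw [hupd c hc]; exact hV3 c hc
    · intro c hc c' hc' f hf f' hf' hne
      rw [mem_insert] at hc hc'
      rcases hc with rfl | hc <;> rcases hc' with rfl | hc'
      · rw [Function.update_self] at hf hf'
        refine hW3 f hf f' hf' ?_
        rintro rfl
        exact hne rfl
      · rw [Function.update_self] at hf
        rw [hupd c' hc'] at hf'
        exact (hW2 f hf).2 f' (mem_biUnion.2 ⟨c', hc', hf'⟩)
      · rw [Function.update_self] at hf'
        rw [hupd c hc] at hf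
        exact ((hW2 f' hf').2 f (mem_biUnion.2 ⟨c, hc, hf⟩)).symm
      · rw [hupd c hc] at hf
        rw [hupd c' hc'] at hf'
        exact hV4 c hc c' hc' f hf f' hf' hne

end Pool.Agent.K3h91.OSC
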