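import Pool.Agent.K3h91.OSC.Weight
import Pool.Agent.K3h91.OSC.Rich

/-!
The set system and the adversary.
-/

namespace Pool.Agent.K3h91.OSC

open Finset

/-- node of depth `δ` above the position `z` -/
def nd (H δ : ℕ) (z : Fin (2 ^ H)) : ℕ := z.val / 2 ^ (H - δ)

lemma nd_coarse {H δ δ' : ℕ} (h : δ ≤ δ') {z z' : Fin (2 ^ H)} (hz : nd H δ' z = nd H δ' z') :
    nd H δ z = nd H δ z' := by
  have key : ∀ y : Fin (2 ^ H), nd H δ y = nd H δ' y / 2 ^ ((H - δ) - (H - δ')) := by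
    intro y
    unfold nd
    rw [Nat.div_div_eq_div_mul, ← pow_add]
    congr 2
    omega
  rw [key, key, hz]

lemma nd_succ {H δ : ℕ} (h : δ + 1 ≤ H) (z : Fin (2 ^ H)) : nd H (δ + 1) z / 2 = nd H δ z := by
  unfold nd
  rw [Nat.div_div_eq_div_mul, ← pow_succ]
  congr 2
  omega

lemma nd_surj {H δ : ℕ} (h : δ ≤ H) {a : ℕ} (ha : a < 2 ^ δ) : ∃ z, nd H δ z = a := by
  refine ⟨⟨a * 2 ^ (H - δ), ?_⟩, ?_⟩
  · calc a * 2 ^ (H - δ) < 2 ^ δ * 2 ^ (H - δ) := Nat.mul_lt_mul_of_pos_right ha (by positivity)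
      _ = 2 ^ H := by rw [← pow_add]; congr 1; omega
  · unfold nd
    exact Nat.mul_div_cancel _ (by positivity)

lemma exists_rk {L : ℕ} (hL : 0 < L) {A : Finset ℕ} (hA : A.card ≤ L) :
    ∃ r : ℕ → Fin L, Set.InjOn r A := by
  obtain ⟨e⟩ := Function.Embedding.nonempty_of_card_le (α := A) (β := Fin L) (by simpa using hA)
  refine ⟨fun n => if h : n ∈ A then e ⟨n, h⟩ else ⟨0, hL⟩, ?_⟩
  intro a ha b hb hab
  rw [mem_coe] at ha hb
  simp only [ha, hb, dif_pos] at hab
  have := e.injective hab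
  simpa using this

/-- an injection of the leaves into the slots -/
noncomputable def rk {L : ℕ} (hL : 0 < L) (A : Finset ℕ) : ℕ → Fin L :=
  open Classical in
  if h : ∃ r : ℕ → Fin L, Set.InjOn r A then h.choose else fun _ => ⟨0, hL⟩

lemma rk_injOn {L : ℕ} (hL : 0 < L) {A : Finset ℕ} (hA : A.card ≤ L) :
    Set.InjOn (rk hL A) A := by
  have h := exists_rk hL hA
  unfold rk
  rw [dif_pos h]
  exact h.choose_spec

/-- index type -/
abbrev J (L q : ℕ) : Type := (ℕ × Finset ℕ) × (Fin L → Fin q)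

/-- point type -/
abbrev X (H q : ℕ) : Type := Fin q × Fin (2 ^ H)

/-- the set with a given index -/
noncomputable def S {L q H : ℕ} (hL : 0 < L) (j : J L q) : Finset (X H q) :=
  open Classical in
  univ.filter (fun p => nd H j.1.1 p.2 ∈ j.1.2 ∧ p.1 = j.2 (rk hL j.1.2 (nd H j.1.1 p.2)))

lemma mem_S {L q H : ℕ} {hL : 0 < L} {j : J L q} {p : X H q} : p ∈ S hL j ↔
    nd H j.1.1 p.2 ∈ j.1.2 ∧ p.1 = j.2 (rk hL j.1.2 (nd H j.1.1 p.2)) := by
  classical
  unfold S
  simp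

/-- what we need to know about the index set for the VC bounds -/
structure Nice {L q : ℕ} (I : Finset (J L q)) : Prop where
  inj : ∀ j ∈ I, Function.Injective j.2
  card : ∀ j ∈ I, j.1.2.card ≤ L
  compat : ∀ j ∈ I, ∀ j' ∈ I, j ≠ j' → Compat j.2 j'.2

section vc

variable {L q H : ℕ} {hL : 0 < L} {I : Finset (J L q)}

lemma trace_eq (hI : Nice I) {j : J L q} (hj : j ∈ I) {p p' : X H q} (hp : p ∈ S hL j)
    (hp' : p' ∈ S hL j) (h : p.1 = p'.1) : nd H j.1.1 p.2 = nd H j.1.1 p'.2 := by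
  rw [mem_S] at hp hp'
  have h1 : rk hL j.1.2 (nd H j.1.1 p.2) = rk hL j.1.2 (nd H j.1.1 p'.2) := by
    apply hI.inj j hj
    rw [← hp.2, ← hp'.2, h]
  exact rk_injOn hL (hI.card j hj) hp.1 hp'.1 h1

lemma trace_closed {j : J L q} {p p' : X H q} (hp : p ∈ S hL j) (h : p.1 = p'.1)
    (hn : nd H j.1.1 p.2 = nd H j.1.1 p'.2) : p' ∈ S hL j := by
  rw [mem_S] at hp ⊢
  rw [← hn, ← h]
  exact hp

lemma mem_range_of_mem {j : J L q} {p : X H q} (hp : p ∈ S hL j) : p.1 ∈ Set.range j.2 := by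
  rw [mem_S] at hp
  exact ⟨_, hp.2.symm⟩

lemma group_eq (hI : Nice I) {j j' : J L q} (hj : j ∈ I) (hj' : j' ∈ I) (hne : j ≠ j')
    {p p' : X H q} (h1 : p ∈ S hL j) (h2 : p ∈ S hL j') (h3 : p' ∈ S hL j) (h4 : p' ∈ S hL j') :
    p.1 = p'.1 :=
  hI.compat j hj j' hj' hne ⟨mem_range_of_mem h1, mem_range_of_mem h2⟩
    ⟨mem_range_of_mem h3, mem_range_of_mem h4⟩

lemma vc3 (hI : Nice I) {a b c : X H q} {j1 j2 j3 : J L q} (hj1 : j1 ∈ I) (hj2 : j2 ∈ I)
    (hj3 : j3 ∈ I) (a1 : a ∈ S hL j1) (b1 : b ∈ S hL j1) (c1 : c ∈ S hL j1)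
    (a2 : a ∈ S hL j2) (b2 : b ∈ S hL j2) (c2 : c ∉ S hL j2)
    (a3 : a ∉ S hL j3) (b3 : b ∈ S hL j3) (c3 : c ∈ S hL j3) : False := by
  have h12 : j1 ≠ j2 := by rintro rfl; exact c2 c1
  have h13 : j1 ≠ j3 := by rintro rfl; exact a3 a1
  have hab : a.1 = b.1 := group_eq hI hj1 hj2 h12 a1 a2 b1 b2
  have hbc : b.1 = c.1 := group_eq hI hj1 hj3 h13 b1 b3 c1 c3
  have e2 := trace_eq hI hj2 a2 b2 hab
  have e3 := trace_eq hI hj3 b3 c3 hbc
  rcases le_total j2.1.1 j3.1.1 with h | h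
  · exact c2 (trace_closed b2 hbc (nd_coarse h e3))
  · exact a3 (trace_closed b3 hab.symm (nd_coarse h e2).symm)

lemma dvc3 (hI : Nice I) {ja jb jc : J L q} (ha : ja ∈ I) (hb : jb ∈ I) (hc : jc ∈ I)
    (hab : ja ≠ jb) (hbc : jb ≠ jc) {p1 p2 p3 : X H q}
    (a1 : p1 ∈ S hL ja) (b1 : p1 ∈ S hL jb) (c1 : p1 ∈ S hL jc)
    (a2 : p2 ∈ S hL ja) (b2 : p2 ∈ S hL jb) (c2 : p2 ∉ S hL jc)
    (a3 : p3 ∉ S hL ja) (b3 : p3 ∈ S hL jb) (c3 : p3 ∈ S hL jc) : False := by
  have h12 : p1.1 = p2.1 := group_eq hI ha hb hab a1 b1 a2 b2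
  have h13 : p1.1 = p3.1 := group_eq hI hb hc hbc b1 c1 b3 c3
  have e2 := trace_eq hI ha a1 a2 h12
  have e3 := trace_eq hI hc c1 c3 h13
  rcases le_total jc.1.1 ja.1.1 with h | h
  · exact c2 (trace_closed c1 h12 (nd_coarse h e2))
  · exact a3 (trace_closed a1 h13 (nd_coarse h e3))

end vc

/-! ### the game -/

/-- number of picks at a node -/
def picks {H q : ℕ} (δ : ℕ) (R : Finset (X H q)) (a : ℕ) : ℕ :=
  (R.filter (fun p => nd H δ p.2 = a)).card

/-- number of picks in a region -/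
def picksIn {H q : ℕ} (δ : ℕ) (R : Finset (X H q)) (A : Finset ℕ) : ℕ :=
  (R.filter (fun p => nd H δ p.2 ∈ A)).card

lemma picksIn_mono {H q δ : ℕ} {R : Finset (X H q)} {A B : Finset ℕ} (h : A ⊆ B) :
    picksIn δ R A ≤ picksIn δ R B := by
  unfold picksIn
  refine card_le_card fun p hp => ?_
  rw [mem_filter] at hp ⊢
  exact ⟨hp.1, h hp.2⟩

lemma picksIn_sum {H q δ : ℕ} (R : Finset (X H q)) (A : Finset ℕ) :
    picksIn δ R A = ∑ a ∈ A, picks δ R a := by
  unfold picksIn picks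
  rw [card_eq_sum_card_fiberwise (f := fun p : X H q => nd H δ p.2) (t := A)]
  · refine sum_congr rfl fun a ha => ?_
    rw [filter_filter]
    congr 1
    ext p
    simp only [mem_filter]
    constructor
    · rintro ⟨h1, _, h2⟩; exact ⟨h1, h2⟩
    · rintro ⟨h1, h2⟩; exact ⟨h1, by rw [h2]; exact ha, h2⟩
  · intro p hp
    rw [mem_coe, mem_filter] at hp
    exact hp.2

lemma picks_mono {H q δ : ℕ} {R R' : Finset (X H q)} (h : R ⊆ R') (a : ℕ) :
    picks δ R a ≤ picks δ R' a := by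
  unfold picks
  exact card_le_card (filter_subset_filter _ h)

lemma picks_succ {H q δ : ℕ} (h : δ + 1 ≤ H) (R : Finset (X H q)) (a : ℕ) :
    picks (δ + 1) R a ≤ picks δ R (a / 2) := by
  unfold picks
  refine card_le_card fun p hp => ?_
  rw [mem_filter] at hp ⊢
  exact ⟨hp.1, by rw [← hp.2, nd_succ h]⟩

lemma picksIn_ref {H q δ : ℕ} (h : δ + 1 ≤ H) (R : Finset (X H q)) (A : Finset ℕ) :
    picksIn (δ + 1) R (ref A) = picksIn δ R A := by
  unfold picksIn
  congr 1
  ext p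
  rw [mem_filter, mem_filter, mem_ref, nd_succ h]

/-- the light leaves -/
def lt {H q : ℕ} (δ : ℕ) (R : Finset (X H q)) (A : Finset ℕ) : Finset ℕ :=
  A.filter (fun a => 2 * picks δ R a ≤ q)

lemma lt_subset {H q δ : ℕ} (R : Finset (X H q)) (A : Finset ℕ) : lt δ R A ⊆ A :=
  filter_subset _ _

lemma card_lt {H q δ : ℕ} (R : Finset (X H q)) (A : Finset ℕ) :
    (A.card - (lt δ R A).card) * (q + 1) ≤ 2 * picksIn δ R A := by
  have h1 : (A.filter (fun a => ¬ (2 * picks δ R a ≤ q))).card + (lt δ R A).card = A.card := by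
    rw [add_comm]; exact card_filter_add_card_filter_not _
  have h2 : A.card - (lt δ R A).card = (A.filter (fun a => ¬ (2 * picks δ R a ≤ q))).card := by
    omega
  rw [h2, picksIn_sum, mul_sum]
  calc (A.filter (fun a => ¬ (2 * picks δ R a ≤ q))).card * (q + 1)
      = ∑ a ∈ A.filter (fun a => ¬ (2 * picks δ R a ≤ q)), (q + 1) := by
        rw [sum_const, smul_eq_mul]
    _ ≤ ∑ a ∈ A.filter (fun a => ¬ (2 * picks δ R a ≤ q)), 2 * picks δ R a := by
        refine sum_le_sum fun a ha => ?_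
        have := (mem_filter.1 ha).2
        omega
    _ ≤ ∑ a ∈ A, 2 * picks δ R a := sum_le_sum_of_subset (filter_subset _ _)

/-- the richness property of the index set -/
def RichSys {L q : ℕ} (H K : ℕ) (I : Finset (J L q)) : Prop :=
  ∀ δ ≤ H, ∀ A ⊆ range (2 ^ δ), A.Nonempty → A.card ≤ L → w δ A ≤ K →
    ∀ B : Fin L → Finset (Fin q), (∀ l, 2 * (B l).card ≤ q) →
      ∃ f, ((δ, A), f) ∈ I ∧ ∀ l, f l ∉ B l

lemma unhit {L q H K : ℕ} {hL : 0 < L} {I : Finset (J L q)} (hI : RichSys H K I)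
    {δ : ℕ} {A : Finset ℕ} (hδ : δ ≤ H) (hA : A ⊆ range (2 ^ δ)) (hne : A.Nonempty)
    (hc : A.card ≤ L) (hw : w δ A ≤ K) (R : Finset (X H q))
    (hlight : ∀ a ∈ A, 2 * picks δ R a ≤ q) :
    ∃ f, ((δ, A), f) ∈ I ∧ ∀ p ∈ S (H := H) hL ((δ, A), f), p ∉ R := by
  let B : Fin L → Finset (Fin q) := fun l =>
    (R.filter (fun p => nd H δ p.2 ∈ A ∧ rk hL A (nd H δ p.2) = l)).image Prod.fst
  obtain ⟨f, hf1, hf2⟩ := hI δ hδ A hA hne hc hw B (by
    intro l
    by_cases h : ∃ a ∈ A, rk hL A a = l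
    · obtain ⟨a, ha, hal⟩ := h
      refine le_trans ?_ (hlight a ha)
      refine Nat.mul_le_mul_left _ (card_image_le.trans (card_le_card fun p hp => ?_))
      rw [mem_filter] at hp ⊢
      refine ⟨hp.1, ?_⟩
      exact rk_injOn hL hc hp.2.1 ha (by rw [hp.2.2, hal])
    · have : B l = ∅ := by
        simp only [B]
        rw [image_eq_empty, filter_eq_empty_iff]
        rintro p _ ⟨h1, h2⟩
        exact h ⟨_, h1, h2⟩
      rw [this]; simp)
  refine ⟨f, hf1, ?_⟩
  intro p hp hpR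
  rw [mem_S] at hp
  apply hf2 (rk hL A (nd H δ p.2))
  have h2 : p.1 = f (rk hL A (nd H δ p.2)) := hp.2
  rw [← h2]
  exact mem_image.2 ⟨p, mem_filter.2 ⟨hpR, hp.1, rfl⟩, rfl⟩

/-- (deterministic) online algorithms on the abstract system: for each history of presented
indices the set of selected points -/
structure Alg {L q H : ℕ} (hL : 0 < L) (I : Finset (J L q)) (alg : List (J L q) → Finset (X H q)) :
    Prop where
  mono : ∀ h j, (∀ i ∈ h, i ∈ I) → j ∈ I → alg h ⊆ alg (h ++ [j])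
  hit : ∀ h, (∀ i ∈ h, i ∈ I) → ∀ j ∈ h, ∃ p ∈ alg h, p ∈ S hL j

/-- a state of the game: the region is `A` at depth `δ`, `R` are the registered picks -/
structure St {L q H : ℕ} (hL : 0 < L) (I : Finset (J L q)) (alg : List (J L q) → Finset (X H q))
    (δ : ℕ) (A : Finset ℕ) (R : Finset (X H q)) (h : List (J L q)) : Prop where
  hI : ∀ j ∈ h, j ∈ I
  len : h.length = R.card
  sub : R ⊆ alg h
  cov : ∀ z, nd H δ z ∈ A → ∀ j ∈ h, ∃ i, (i, z) ∈ S hL j

lemma St.mono {L q H : ℕ} {hL : 0 < L} {I : Finset (J L q)}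
    {alg : List (J L q) → Finset (X H q)} {δ : ℕ} {A B : Finset ℕ} {R : Finset (X H q)}
    {h : List (J L q)} (hst : St hL I alg δ A R h) (hB : B ⊆ A) : St hL I alg δ B R h :=
  ⟨hst.hI, hst.len, hst.sub, fun z hz => hst.cov z (hB hz)⟩

/-- one round -/
lemma round {L q H K : ℕ} {hL : 0 < L} {I : Finset (J L q)} (hI : RichSys H K I)
    {alg : List (J L q) → Finset (X H q)} (halg : Alg hL I alg)
    {δ : ℕ} {A : Finset ℕ} (hδ : δ ≤ H) (hA : A ⊆ range (2 ^ δ)) (hne : A.Nonempty)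
    (hc : A.card ≤ L) (hw : w δ A ≤ K) {R : Finset (X H q)} {h : List (J L q)}
    (hlight : ∀ a ∈ A, 2 * picks δ R a ≤ q) (hst : St hL I alg δ A R h) :
    ∃ p j, p ∉ R ∧ St hL I alg δ A (insert p R) (h ++ [j]) := by
  obtain ⟨f, hf1, hf2⟩ := unhit (hL := hL) hI hδ hA hne hc hw R hlight
  have hvalid : ∀ i ∈ h ++ [((δ, A), f)], i ∈ I := by
    intro i hi
    rw [List.mem_append, List.mem_singleton] at hi
    rcases hi with hi | rfl
    · exact hst.hI i hi
    · exact hf1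
  obtain ⟨p, hp1, hp2⟩ := halg.hit (h ++ [((δ, A), f)]) hvalid ((δ, A), f) (by simp)
  refine ⟨p, ((δ, A), f), hf2 p hp2, hvalid, ?_, ?_, ?_⟩
  · rw [card_insert_of_notMem (hf2 p hp2), List.length_append, hst.len]; rfl
  · intro r hr
    rw [mem_insert] at hr
    rcases hr with rfl | hr
    · exact hp1
    · exact halg.mono h _ hst.hI hf1 (hst.sub hr)
  · intro z hz j hj
    rw [List.mem_append, List.mem_singleton] at hj
    rcases hj with hj | rfl
    · exact hst.cov z hz j hj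
    · exact ⟨f (rk hL A (nd H δ z)), by rw [mem_S]; exact ⟨hz, rfl⟩⟩

/-- the rounds of one generation -/
lemma phase {x q H : ℕ} (hx : 0 < x) {hL : 0 < 48 * x} {I : Finset (J (48 * x) q)}
    (hI : RichSys H (192 * x) I)
    {alg : List (J (48 * x) q) → Finset (X H q)} (halg : Alg hL I alg)
    {δ : ℕ} {A : Finset ℕ} (hδ : δ ≤ H) (hA : A ⊆ range (2 ^ δ)) (hlo : 12 * x ≤ A.card)
    (hup : A.card ≤ 48 * x) (hw : w δ A ≤ 192 * x) {R : Finset (X H q)}
    {h : List (J (48 * x) q)} (hst : St hL I alg δ A R h)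
    (hpi : picksIn δ R A ≤ 2 * x * q) (k : ℕ) (hk : k ≤ x * q) :
    ∃ R' h', St hL I alg δ (lt δ R' A) R' h' ∧ R'.card = R.card + k ∧
      picksIn δ R' A ≤ picksIn δ R A + k ∧ 6 * x < (lt δ R' A).card := by
  have key : ∀ (R' : Finset (X H q)), picksIn δ R' A ≤ 3 * x * q → 6 * x < (lt δ R' A).card := by
    intro R' h'
    have h1 := card_lt (δ := δ) R' A
    by_contra hcon
    have h2 : 6 * x ≤ A.card - (lt δ R' A).card := by omega
    have h3 : 6 * x * (q + 1) ≤ 2 * (3 * x * q) :=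
      (Nat.mul_le_mul_right _ h2).trans (h1.trans (Nat.mul_le_mul_left _ h'))
    have h4 : 6 * x * (q + 1) = 2 * (3 * x * q) + 6 * x := by ring
    omega
  induction k with
  | zero =>
    refine ⟨R, h, hst.mono (lt_subset R A), by simp, by simp, key R ?_⟩
    have : 2 * x * q ≤ 3 * x * q := by gcongr; omega
    omega
  | succ k ih =>
    obtain ⟨R', h', h1, h2, h3, h4⟩ := ih (by omega)
    have hsub : lt δ R' A ⊆ A := lt_subset R' A
    obtain ⟨p, j, hp, hst'⟩ := round hI halg hδ (hsub.trans hA) (card_pos.1 (by omega))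
      ((card_le_card hsub).trans hup) ((w_mono hsub).trans hw)
      (fun a ha => (mem_filter.1 ha).2) h1
    have h5 : picksIn δ (insert p R') A ≤ picksIn δ R A + (k + 1) := by
      have : picksIn δ (insert p R') A ≤ picksIn δ R' A + 1 := by
        unfold picksIn
        rw [filter_insert]
        split_ifs
        · exact card_insert_le _ _
        · omega
      omega
    refine ⟨insert p R', h' ++ [j], hst'.mono ?_, ?_, h5, key _ ?_⟩
    · intro a ha
      unfold lt at ha ⊢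
      rw [mem_filter] at ha ⊢
      refine ⟨ha.1, le_trans ?_ ha.2⟩
      exact Nat.mul_le_mul_left _ (picks_mono (subset_insert _ _) a)
    · rw [card_insert_of_notMem hp, h2]; ring
    · have : 2 * x * q + x * q = 3 * x * q := by ring
      omega

/-- the invariant between generations -/
structure Inv {x q H : ℕ} (hL : 0 < 48 * x) (I : Finset (J (48 * x) q))
    (alg : List (J (48 * x) q) → Finset (X H q))
    (δ : ℕ) (A : Finset ℕ) (R : Finset (X H q)) (h : List (J (48 * x) q)) : Prop where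
  sub : A ⊆ range (2 ^ δ)
  lo : 12 * x ≤ A.card
  up : A.card ≤ 48 * x
  pot : w δ A * q + 96 * picksIn δ R A ≤ 192 * x * q
  st : St hL I alg δ A R h

lemma St.ref {L q H : ℕ} {hL : 0 < L} {I : Finset (J L q)}
    {alg : List (J L q) → Finset (X H q)} {δ : ℕ} {A : Finset ℕ} {R : Finset (X H q)}
    {h : List (J L q)} (hst : St hL I alg δ A R h) (hδ : δ + 1 ≤ H) :
    St hL I alg (δ + 1) (ref A) R h :=
  ⟨hst.hI, hst.len, hst.sub, fun z hz => hst.cov z (by rw [mem_ref, nd_succ hδ] at hz; exact hz)⟩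

lemma cut {x q H : ℕ} (hx : 0 < x) {hL : 0 < 48 * x} {I : Finset (J (48 * x) q)}
    {alg : List (J (48 * x) q) → Finset (X H q)} {δ : ℕ} {A : Finset ℕ} {R : Finset (X H q)}
    {h : List (J (48 * x) q)} (hA : A ⊆ range (2 ^ δ)) (hlo : 24 * x ≤ A.card)
    (hup : A.card ≤ 96 * x) (hpot : w δ A * q + 96 * picksIn δ R A ≤ 384 * x * q)
    (hst : St hL I alg δ A R h) : ∃ A', Inv hL I alg δ A' R h := by
  obtain ⟨B, C, hBC, hd, hB, hlt⟩ := exists_cut A (A.card / 2) (by omega)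
  have hcard : B.card + C.card = A.card := by rw [← hBC, card_union_of_disjoint hd]
  have hBne : B.Nonempty := card_pos.1 (by omega)
  have hCne : C.Nonempty := card_pos.1 (by omega)
  have hw := w_cut (δ := δ) hBC hBne hCne hlt
  have hp : picksIn δ R B + picksIn δ R C = picksIn δ R A := by
    rw [picksIn_sum, picksIn_sum, picksIn_sum, ← hBC, sum_union hd]
  have hBA : B ⊆ A := by rw [← hBC]; exact subset_union_left
  have hCA : C ⊆ A := by rw [← hBC]; exact subset_union_right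
  have hsum : (w δ B * q + 96 * picksIn δ R B) + (w δ C * q + 96 * picksIn δ R C) ≤
      384 * x * q := by
    calc (w δ B * q + 96 * picksIn δ R B) + (w δ C * q + 96 * picksIn δ R C)
        = (w δ B + w δ C) * q + 96 * (picksIn δ R B + picksIn δ R C) := by ring
      _ ≤ w δ A * q + 96 * picksIn δ R A := by
          rw [hp]; gcongr
      _ ≤ _ := hpot
  have h384 : 384 * x * q = 192 * x * q + 192 * x * q := by ring
  by_cases hcase : w δ B * q + 96 * picksIn δ R B ≤ 192 * x * q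
  · exact ⟨B, hBA.trans hA, by omega, by omega, hcase, hst.mono hBA⟩
  · exact ⟨C, hCA.trans hA, by omega, by omega, by omega, hst.mono hCA⟩

lemma generation {x q H : ℕ} (hx : 0 < x) {hL : 0 < 48 * x} {I : Finset (J (48 * x) q)}
    (hq : 0 < q) (hI : RichSys H (192 * x) I)
    {alg : List (J (48 * x) q) → Finset (X H q)} (halg : Alg hL I alg)
    {δ : ℕ} {A : Finset ℕ} (hδ : δ + 2 ≤ H) {R : Finset (X H q)}
    {h : List (J (48 * x) q)} (hinv : Inv hL I alg δ A R h) :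
    ∃ δ' A' R' h', δ' ≤ δ + 2 ∧ Inv hL I alg δ' A' R' h' ∧ R'.card = R.card + x * q := by
  have hw : w δ A ≤ 192 * x := by
    have h1 : w δ A * q ≤ 192 * x * q := le_trans (by omega) hinv.pot
    exact Nat.le_of_mul_le_mul_right h1 hq
  have hpi : picksIn δ R A ≤ 2 * x * q := by
    have h1 : 96 * picksIn δ R A ≤ 96 * (2 * x * q) := by
      calc 96 * picksIn δ R A ≤ 192 * x * q := le_trans (by omega) hinv.pot
        _ = 96 * (2 * x * q) := by ring
    omega
  obtain ⟨R', h', hst, hR', hpi', hcard⟩ := phase hx hI halg (by omega) hinv.sub hinv.lo hinv.up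
    hw hinv.st hpi (x * q) le_rfl
  have hsub : lt δ R' A ⊆ A := lt_subset R' A
  have hA1 : lt δ R' A ⊆ range (2 ^ δ) := hsub.trans hinv.sub
  have hup1 : (lt δ R' A).card ≤ 48 * x := (card_le_card hsub).trans hinv.up
  have hw1 : w δ (lt δ R' A) ≤ w δ A := w_mono hsub
  have hp1 : picksIn δ R' (lt δ R' A) ≤ picksIn δ R A + x * q :=
    (picksIn_mono hsub).trans hpi'
  have hpot := hinv.pot
  by_cases hcase : 12 * x ≤ (lt δ R' A).card
  · have hst2 := hst.ref (by omega : δ + 1 ≤ H)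
    have hw2 := w_ref δ (lt δ R' A)
    have hp2 := picksIn_ref (by omega : δ + 1 ≤ H) R' (lt δ R' A)
    have hc2 := card_ref (lt δ R' A)
    obtain ⟨A', hA'⟩ := cut (hL := hL) hx (ref_subset hA1) (by omega) (by omega) (by
      rw [hp2]
      calc w (δ + 1) (ref (lt δ R' A)) * q + 96 * picksIn δ R' (lt δ R' A)
          ≤ (w δ A + 96 * x) * q + 96 * (picksIn δ R A + x * q) := by
            gcongr
            omega
        _ = (w δ A * q + 96 * picksIn δ R A) + 192 * x * q := by ring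
        _ ≤ 192 * x * q + 192 * x * q := by gcongr
        _ = 384 * x * q := by ring) hst2
    exact ⟨δ + 1, A', R', h', by omega, hA', hR'⟩
  · have hst2 := (hst.ref (by omega : δ + 1 ≤ H)).ref (by omega : δ + 1 + 1 ≤ H)
    have hw2 := w_ref δ (lt δ R' A)
    have hw3 := w_ref (δ + 1) (ref (lt δ R' A))
    have hp2 := picksIn_ref (by omega : δ + 1 ≤ H) R' (lt δ R' A)
    have hp3 := picksIn_ref (by omega : δ + 1 + 1 ≤ H) R' (ref (lt δ R' A))
    have hc2 := card_ref (lt δ R' A)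
    have hc3 := card_ref (ref (lt δ R' A))
    obtain ⟨A', hA'⟩ := cut (hL := hL) hx (ref_subset (ref_subset hA1)) (by omega) (by omega) (by
      rw [hp3, hp2]
      calc w (δ + 1 + 1) (ref (ref (lt δ R' A))) * q + 96 * picksIn δ R' (lt δ R' A)
          ≤ (w δ A + 96 * x) * q + 96 * (picksIn δ R A + x * q) := by
            gcongr
            omega
        _ = (w δ A * q + 96 * picksIn δ R A) + 192 * x * q := by ring
        _ ≤ 192 * x * q + 192 * x * q := by gcongr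
        _ = 384 * x * q := by ring) hst2
    exact ⟨δ + 1 + 1, A', R', h', by omega, hA', hR'⟩

lemma generations {x q H : ℕ} (hx : 0 < x) {hL : 0 < 48 * x} {I : Finset (J (48 * x) q)}
    (hq : 0 < q) (hI : RichSys H (192 * x) I)
    {alg : List (J (48 * x) q) → Finset (X H q)} (halg : Alg hL I alg) (G : ℕ)
    (hG : 24 * x + 2 * G ≤ H) :
    ∃ δ A R h, δ ≤ 24 * x + 2 * G ∧ Inv hL I alg δ A R h ∧ R.card = G * (x * q) := by
  induction G with
  | zero =>
    have h1 : 12 * x ≤ 2 ^ Nat.clog 2 (12 * x) := Nat.le_pow_clog (by norm_num) _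
    have h2 : 2 ^ (Nat.clog 2 (12 * x) - 1) < 12 * x :=
      Nat.pow_pred_clog_lt_self (by norm_num) (by omega)
    have h3 : 0 < Nat.clog 2 (12 * x) := Nat.clog_pos (by norm_num) (by omega)
    set δ := Nat.clog 2 (12 * x) with hδ
    have h4 : 2 ^ δ = 2 * 2 ^ (δ - 1) := by
      rw [← pow_succ']; congr 1; omega
    have h5 : δ < 2 ^ δ := Nat.lt_two_pow_self
    refine ⟨δ, range (2 ^ δ), ∅, [], by omega, ⟨subset_rfl, by rw [card_range]; omega,
      by rw [card_range]; omega, ?_, ⟨by simp, by simp, by simp, by simp⟩⟩, by simp⟩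
    have h6 := w_full δ
    have h7 : picksIn δ (∅ : Finset (X H q)) (range (2 ^ δ)) = 0 := by simp [picksIn]
    rw [h7]
    have h8 : w δ (range (2 ^ δ)) ≤ 192 * x := by omega
    simpa using Nat.mul_le_mul_right q h8
  | succ G ih =>
    obtain ⟨δ, A, R, h, h1, h2, h3⟩ := ih (by omega)
    obtain ⟨δ', A', R', h', h4, h5, h6⟩ := generation hx hq hI halg (by omega) h2
    refine ⟨δ', A', R', h', by omega, h5, ?_⟩
    rw [h6, h3]; ring

/-- the abstract lower bound -/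
theorem core {x q : ℕ} (hx : 0 < x) (hL : 0 < 48 * x) {I : Finset (J (48 * x) q)}
    (hq : 0 < q) (hI : RichSys (1000 * x) (192 * x) I)
    {alg : List (J (48 * x) q) → Finset (X (1000 * x) q)} (halg : Alg hL I alg) :
    ∃ h : List (J (48 * x) q), h ≠ [] ∧ (∀ j ∈ h, j ∈ I) ∧
      (∃ z : Fin (2 ^ (1000 * x)), ∀ j ∈ h, ∃ i, (i, z) ∈ S hL j) ∧ 488 * x ^ 2 * q ≤ (alg h).card := by
  obtain ⟨δ, A, R, h, h1, h2, h3⟩ := generations hx hq hI halg (488 * x) (by omega)
  have hR : 488 * x ^ 2 * q = R.card := by rw [h3]; ring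
  have hApos : 0 < A.card := by have := h2.lo; omega
  obtain ⟨a, ha⟩ := card_pos.1 hApos
  obtain ⟨z, hz⟩ := nd_surj (H := 1000 * x) (by omega : δ ≤ 1000 * x) (mem_range.1 (h2.sub ha))
  refine ⟨h, ?_, h2.st.hI, ⟨z, h2.st.cov z (by rw [hz]; exact ha)⟩, ?_⟩
  · rintro rfl
    have h4 := h2.st.len
    rw [← hR] at h4
    have : 0 < 488 * x ^ 2 * q := by positivity
    simp at h4
    omega
  · rw [hR]
    exact card_le_card h2.st.sub

end Pool.Agent.K3h91.OSC
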