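import Pool.Agent.K3h91.OSC.Game

/-!
The parameters.
-/

namespace Pool.Agent.K3h91.OSC

open Finset

lemma forty_eight (x : ℕ) : 48 * x ≤ 2 ^ (6 * x) := by
  induction x with
  | zero => simp
  | succ x ih =>
    have h1 : 2 ^ (6 * (x + 1)) = 64 * 2 ^ (6 * x) := by
      rw [mul_add, pow_add]; norm_num; ring
    have h2 : 1 ≤ 2 ^ (6 * x) := Nat.one_le_two_pow
    omega

lemma param_one {x : ℕ} (hx : 0 < x) :
    2 * 2 ^ (48 * x) * ((48 * x) ^ 2 * (2 ^ (2000 * x) + 2 ^ (1390 * x) *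
      (2 * 2 ^ (48 * x) * (2 ^ (2000 * x) * (48 * x))) * (48 * x) ^ 2)) ≤
      (2 ^ (2000 * x)) ^ 2 := by
  have h0 := forty_eight x
  calc 2 * 2 ^ (48 * x) * ((48 * x) ^ 2 * (2 ^ (2000 * x) + 2 ^ (1390 * x) *
      (2 * 2 ^ (48 * x) * (2 ^ (2000 * x) * (48 * x))) * (48 * x) ^ 2))
      ≤ 2 * 2 ^ (48 * x) * ((2 ^ (6 * x)) ^ 2 * (2 ^ (2000 * x) + 2 ^ (1390 * x) *
      (2 * 2 ^ (48 * x) * (2 ^ (2000 * x) * 2 ^ (6 * x))) * (2 ^ (6 * x)) ^ 2)) := by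
        gcongr
    _ = 2 ^ (1 + 48 * x + 6 * x * 2) * (2 ^ (2000 * x) +
        2 ^ (1390 * x + (1 + 48 * x + (2000 * x + 6 * x)) + 6 * x * 2)) := by
        simp only [pow_add, pow_mul, pow_one]
        ring
    _ ≤ 2 ^ (1 + 48 * x + 6 * x * 2) * (2 ^ (3456 * x + 1) + 2 ^ (3456 * x + 1)) :=
        Nat.mul_le_mul_left _ (Nat.add_le_add
          (Nat.pow_le_pow_right (by norm_num) (by omega))
          (Nat.pow_le_pow_right (by norm_num) (by omega)))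
    _ = 2 ^ (1 + 48 * x + 6 * x * 2 + (3456 * x + 1 + 1)) := by
        rw [pow_add 2 (1 + 48 * x + 6 * x * 2), pow_succ 2 (3456 * x + 1)]; ring
    _ ≤ 2 ^ (2000 * x * 2) := Nat.pow_le_pow_right (by norm_num) (by omega)
    _ = (2 ^ (2000 * x)) ^ 2 := by rw [pow_mul]

lemma S_nonempty {L q H : ℕ} {hL : 0 < L} {j : J L q} (h1 : j.1.1 ≤ H)
    (h2 : j.1.2 ⊆ range (2 ^ j.1.1)) (h3 : j.1.2.Nonempty) : (S (H := H) hL j).Nonempty := by
  obtain ⟨a, ha⟩ := h3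
  obtain ⟨z, hz⟩ := nd_surj h1 (mem_range.1 (h2 ha))
  refine ⟨(j.2 (rk hL j.1.2 (nd H j.1.1 z)), z), ?_⟩
  rw [mem_S]
  exact ⟨by rw [hz]; exact ha, rfl⟩

theorem exists_system {x : ℕ} (hx : 0 < x) (hL : 0 < 48 * x) :
    ∃ I : Finset (J (48 * x) (2 ^ (2000 * x))), Nice I ∧ RichSys (1000 * x) (192 * x) I ∧
      I.card ≤ 2 ^ (3500 * x) ∧ ∀ j ∈ I, (S (H := 1000 * x) hL j).Nonempty := by
  set C := (Cls (1000 * x) (192 * x)).filter (fun c => c.2.card ≤ 48 * x) with hC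
  have hCcard : C.card ≤ 2 ^ (1390 * x) := by
    calc C.card ≤ (Cls (1000 * x) (192 * x)).card := card_filter_le _ _
      _ ≤ 2 ^ (1000 * x + 2) * 4 ^ (192 * x) := card_Cls _ _
      _ = 2 ^ (1384 * x + 2) := by
          have : (4 : ℕ) = 2 ^ 2 := by norm_num
          rw [this, ← pow_mul, ← pow_add]
          congr 1
          ring
      _ ≤ 2 ^ (1390 * x) := Nat.pow_le_pow_right (by norm_num) (by omega)
  obtain ⟨V, hV1, hV2, hV3, hV4⟩ := rich_all (L := 48 * x) (q := 2 ^ (2000 * x))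
    (T := 2 ^ (1390 * x)) (by positivity) (by omega) (param_one hx) C hCcard
  set I : Finset (J (48 * x) (2 ^ (2000 * x))) := C.biUnion (fun c => (V c).image (fun f => (c, f)))
    with hI
  have hmem : ∀ j, j ∈ I ↔ j.1 ∈ C ∧ j.2 ∈ V j.1 := by
    intro j
    rw [hI, mem_biUnion]
    constructor
    · rintro ⟨c, hc, hj⟩
      rw [mem_image] at hj
      obtain ⟨f, hf, rfl⟩ := hj
      exact ⟨hc, hf⟩
    · rintro ⟨h1, h2⟩
      exact ⟨j.1, h1, mem_image.2 ⟨j.2, h2, rfl⟩⟩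
  refine ⟨I, ⟨?_, ?_, ?_⟩, ?_, ?_, ?_⟩
  · intro j hj
    rw [hmem] at hj
    exact hV2 j.1 hj.1 j.2 hj.2
  · intro j hj
    rw [hmem] at hj
    exact (mem_filter.1 hj.1).2
  · intro j hj j' hj' hne
    rw [hmem] at hj hj'
    exact hV4 j.1 hj.1 j'.1 hj'.1 j.2 hj.2 j'.2 hj'.2 hne
  · intro δ hδ A hA hne hc hw B hB
    have hcC : (δ, A) ∈ C := by
      rw [hC, mem_filter, mem_Cls]
      exact ⟨⟨hδ, hA, hne, hw⟩, hc⟩
    obtain ⟨f, hf1, hf2⟩ := hV3 (δ, A) hcC B hB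
    exact ⟨f, (hmem _).2 ⟨hcC, hf1⟩, hf2⟩
  · calc I.card ≤ ∑ c ∈ C, ((V c).image (fun f => (c, f))).card := card_biUnion_le
      _ ≤ ∑ c ∈ C, 2 * 2 ^ (48 * x) * (2 ^ (2000 * x) * (48 * x)) :=
          sum_le_sum fun c hc => card_image_le.trans (hV1 c hc)
      _ = C.card * (2 * 2 ^ (48 * x) * (2 ^ (2000 * x) * (48 * x))) := by
          rw [sum_const, smul_eq_mul]
      _ ≤ 2 ^ (1390 * x) * (2 * 2 ^ (48 * x) * (2 ^ (2000 * x) * 2 ^ (6 * x))) := by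
          gcongr
          exact forty_eight x
      _ = 2 ^ (1390 * x + (1 + 48 * x + (2000 * x + 6 * x))) := by
          simp only [pow_add, pow_one]
      _ ≤ 2 ^ (3500 * x) := Nat.pow_le_pow_right (by norm_num) (by omega)
  · intro j hj
    rw [hmem] at hj
    have h1 := mem_Cls.1 (mem_filter.1 hj.1).1
    exact S_nonempty h1.1 h1.2.1 h1.2.2.1

/-- the scale of `n` -/
lemma log_bound {a n : ℕ} (ha : 0 < a) (hn : 2 ^ a ≤ n) :
    0 < Nat.log 2 n / a ∧ 2 ^ (a * (Nat.log 2 n / a)) ≤ n ∧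
      Real.log n ≤ 2 * a * (Nat.log 2 n / a : ℕ) := by
  have hn0 : n ≠ 0 := by
    have : 0 < 2 ^ a := by positivity
    omega
  have h1 : a ≤ Nat.log 2 n := (Nat.le_log_iff_pow_le (by norm_num) hn0).2 hn
  have hx : 0 < Nat.log 2 n / a := Nat.div_pos h1 ha
  refine ⟨hx, ?_, ?_⟩
  · calc 2 ^ (a * (Nat.log 2 n / a)) ≤ 2 ^ Nat.log 2 n :=
          Nat.pow_le_pow_right (by norm_num) (Nat.mul_div_le _ _)
      _ ≤ n := Nat.pow_log_le_self 2 hn0
  · set x := Nat.log 2 n / a with hxdef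
    have h2 : n < 2 ^ (a * (x + 1)) := by
      have h3 : Nat.log 2 n < a * (x + 1) := by
        rw [hxdef, mul_comm]
        exact Nat.lt_mul_of_div_lt (Nat.lt_succ_self _) ha
      exact Nat.lt_pow_of_log_lt (by norm_num) h3
    have h4 : (n : ℝ) ≤ 2 ^ (a * (x + 1)) := by exact_mod_cast h2.le
    have h5 : Real.log n ≤ (a * (x + 1) : ℕ) * Real.log 2 := by
      rw [← Real.log_pow]
      exact Real.log_le_log (by exact_mod_cast Nat.pos_of_ne_zero hn0) h4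
    have h6 : Real.log 2 ≤ 1 := by
      have := Real.log_two_lt_d9
      linarith
    have h7 : (0 : ℝ) ≤ (a * (x + 1) : ℕ) := by positivity
    have h8 : Real.log n ≤ (a * (x + 1) : ℕ) := h5.trans (by nlinarith)
    refine h8.trans ?_
    have h9 : a * (x + 1) ≤ 2 * a * x := by
      have : a * 1 ≤ a * x := Nat.mul_le_mul_left _ hx
      calc a * (x + 1) = a * x + a * 1 := by ring
        _ ≤ a * x + a * x := by gcongr
        _ = 2 * a * x := by ring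
    exact_mod_cast h9

end Pool.Agent.K3h91.OSC
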