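import Mathlib

/-!
Weights of finite sets of tree leaves.  A set `A` of naturals below `2 ^ δ` is read as a set of
nodes of depth `δ` of the binary tree; `im i A` is the set of their ancestors `i` levels up and
`w δ A` is the sum over the levels of (number of ancestors - 1).
-/

namespace Pool.Agent.K3h91.OSC

open Finset

/-- ancestors `i` levels up -/
def im (i : ℕ) (A : Finset ℕ) : Finset ℕ := A.image (fun a => a / 2 ^ i)

/-- the weight -/
def w (δ : ℕ) (A : Finset ℕ) : ℕ := ∑ i ∈ range δ, ((im i A).card - 1)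

lemma im_nonempty {i : ℕ} {A : Finset ℕ} (h : A.Nonempty) : (im i A).Nonempty :=
  h.image _

lemma im_mono {i : ℕ} {A B : Finset ℕ} (h : A ⊆ B) : im i A ⊆ im i B :=
  image_subset_image h

lemma w_mono {δ : ℕ} {A B : Finset ℕ} (h : A ⊆ B) : w δ A ≤ w δ B :=
  sum_le_sum fun _ _ => Nat.sub_le_sub_right (card_le_card (im_mono h)) 1

/-- children -/
def ref (A : Finset ℕ) : Finset ℕ := A.image (fun a => 2 * a) ∪ A.image (fun a => 2 * a + 1)

lemma mem_ref {A : Finset ℕ} {y : ℕ} : y ∈ ref A ↔ y / 2 ∈ A := by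
  unfold ref
  simp only [mem_union, mem_image]
  constructor
  · rintro (⟨a, ha, rfl⟩ | ⟨a, ha, rfl⟩)
    · have : 2 * a / 2 = a := by omega
      rwa [this]
    · have : (2 * a + 1) / 2 = a := by omega
      rwa [this]
  · intro h
    rcases Nat.even_or_odd' y with ⟨k, hk | hk⟩
    · left
      refine ⟨y / 2, h, by omega⟩
    · right
      refine ⟨y / 2, h, by omega⟩

lemma card_ref (A : Finset ℕ) : (ref A).card = 2 * A.card := by
  unfold ref
  rw [card_union_of_disjoint, card_image_of_injective, card_image_of_injective]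
  · ring
  · intro a b h
    simpa using h
  · intro a b h
    simpa using h
  · rw [disjoint_left]
    intro y hy hy'
    simp only [mem_image] at hy hy'
    obtain ⟨a, _, ha⟩ := hy
    obtain ⟨b, _, hb⟩ := hy'
    omega

lemma im_zero (A : Finset ℕ) : im 0 A = A := by
  unfold im; simp

lemma im_succ_ref (i : ℕ) (A : Finset ℕ) : im (i + 1) (ref A) = im i A := by
  ext y
  unfold im
  simp only [mem_image, mem_ref]
  constructor
  · rintro ⟨a, ha, rfl⟩
    refine ⟨a / 2, ha, ?_⟩
    rw [Nat.div_div_eq_div_mul, pow_succ, mul_comm]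
  · rintro ⟨a, ha, rfl⟩
    refine ⟨2 * a, ?_, ?_⟩
    · have : 2 * a / 2 = a := by omega
      rwa [this]
    · rw [pow_succ, mul_comm (2 ^ i) 2, ← Nat.div_div_eq_div_mul]
      have : 2 * a / 2 = a := by omega
      rw [this]

lemma w_ref (δ : ℕ) (A : Finset ℕ) : w (δ + 1) (ref A) = w δ A + (2 * A.card - 1) := by
  unfold w
  rw [sum_range_succ']
  simp only [im_succ_ref, im_zero, card_ref]

lemma ref_subset {δ : ℕ} {A : Finset ℕ} (h : A ⊆ range (2 ^ δ)) : ref A ⊆ range (2 ^ (δ + 1)) := by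
  intro y hy
  rw [mem_ref] at hy
  have := mem_range.1 (h hy)
  rw [mem_range, pow_succ]
  omega

/-- splitting a set of naturals in an initial and a final part of prescribed sizes -/
lemma exists_cut (A : Finset ℕ) : ∀ k ≤ A.card, ∃ B C : Finset ℕ, B ∪ C = A ∧ Disjoint B C ∧
    B.card = k ∧ ∀ b ∈ B, ∀ c ∈ C, b < c := by
  intro k
  induction k with
  | zero =>
    intro _
    exact ⟨∅, A, by simp, by simp, by simp, by simp⟩
  | succ k ih =>
    intro hk
    obtain ⟨B, C, hBC, hd, hB, hlt⟩ := ih (by omega)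
    have hC : C.Nonempty := by
      rw [← card_pos]
      have := card_union_of_disjoint hd
      rw [hBC] at this
      omega
    refine ⟨insert (C.min' hC) B, C.erase (C.min' hC), ?_, ?_, ?_, ?_⟩
    · ext y
      have : y ∈ A ↔ y ∈ B ∨ y ∈ C := by rw [← hBC, mem_union]
      rw [this]
      simp only [mem_union, mem_insert, mem_erase]
      constructor
      · rintro ((rfl | h) | h)
        · exact Or.inr (min'_mem _ _)
        · exact Or.inl h
        · exact Or.inr h.2
      · rintro (h | h)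
        · exact Or.inl (Or.inr h)
        · by_cases hy : y = C.min' hC
          · exact Or.inl (Or.inl hy)
          · exact Or.inr ⟨hy, h⟩
    · rw [disjoint_left] at hd ⊢
      intro y hy hy'
      rw [mem_insert] at hy
      rw [mem_erase] at hy'
      rcases hy with hy | hy
      · exact hy'.1 hy
      · exact hd hy hy'.2
    · rw [card_insert_of_notMem, hB]
      intro h
      exact (disjoint_left.1 hd) h (min'_mem _ _)
    · intro b hb c hc
      rw [mem_insert] at hb
      rw [mem_erase] at hc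
      rcases hb with rfl | hb
      · exact lt_of_le_of_ne (min'_le _ _ hc.2) (Ne.symm hc.1)
      · exact hlt b hb c hc.2

lemma w_cut {δ : ℕ} {A B C : Finset ℕ} (hA : B ∪ C = A) (hB : B.Nonempty) (hC : C.Nonempty)
    (hlt : ∀ b ∈ B, ∀ c ∈ C, b < c) : w δ B + w δ C ≤ w δ A := by
  unfold w
  rw [← sum_add_distrib]
  refine sum_le_sum fun i _ => ?_
  have h1 : im i A = im i B ∪ im i C := by
    rw [← hA]; unfold im; rw [image_union]
  have h2 : (im i B ∩ im i C).card ≤ 1 := by
    rw [card_le_one]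
    intro u hu v hv
    simp only [im, mem_inter, mem_image] at hu hv
    obtain ⟨⟨a, ha, hau⟩, ⟨b, hb, hbu⟩⟩ := hu
    obtain ⟨⟨a', ha', hav⟩, ⟨b', hb', hbv⟩⟩ := hv
    apply le_antisymm
    · rw [← hau, ← hbv]
      exact Nat.div_le_div_right (hlt a ha b' hb').le
    · rw [← hav, ← hbu]
      exact Nat.div_le_div_right (hlt a' ha' b hb).le
  have h3 := card_union_add_card_inter (im i B) (im i C)
  have h4 : 0 < (im i B).card := card_pos.2 (im_nonempty hB)
  have h5 : 0 < (im i C).card := card_pos.2 (im_nonempty hC)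
  rw [h1]
  omega

/-! ### counting -/

/-- lower half -/
def lo (δ : ℕ) (A : Finset ℕ) : Finset ℕ := (range (2 ^ δ)).filter (fun a => a ∈ A)

/-- upper half, shifted -/
def hi (δ : ℕ) (A : Finset ℕ) : Finset ℕ := (range (2 ^ δ)).filter (fun a => a + 2 ^ δ ∈ A)

lemma im_card_split {δ i : ℕ} (hi' : i ≤ δ) {A : Finset ℕ} (hA : A ⊆ range (2 ^ (δ + 1))) :
    (im i A).card = (im i (lo δ A)).card + (im i (hi δ A)).card := by
  have hpow : 2 ^ δ = 2 ^ (δ - i) * 2 ^ i := by rw [← pow_add]; congr 1; omega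
  have hpos : 0 < 2 ^ i := by positivity
  have h1 : im i A = im i (lo δ A) ∪ (im i (hi δ A)).image (fun a => a + 2 ^ (δ - i)) := by
    ext y
    simp only [im, lo, hi, mem_image, mem_union, mem_filter, mem_range]
    constructor
    · rintro ⟨a, ha, rfl⟩
      have ha2 := mem_range.1 (hA ha)
      rw [pow_succ] at ha2
      by_cases h : a < 2 ^ δ
      · left; exact ⟨a, ⟨h, ha⟩, rfl⟩
      · right
        refine ⟨(a - 2 ^ δ) / 2 ^ i, ⟨a - 2 ^ δ, ⟨by omega, ?_⟩, rfl⟩, ?_⟩
        · have : a - 2 ^ δ + 2 ^ δ = a := by omega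
          rwa [this]
        · rw [← Nat.add_mul_div_right _ _ hpos, ← hpow]
          congr 1; omega
    · rintro (⟨a, ⟨_, ha⟩, rfl⟩ | ⟨b, ⟨a, ⟨_, ha⟩, rfl⟩, rfl⟩)
      · exact ⟨a, ha, rfl⟩
      · refine ⟨a + 2 ^ δ, ha, ?_⟩
        rw [← Nat.add_mul_div_right _ _ hpos, ← hpow]
  rw [h1, card_union_of_disjoint, card_image_of_injective]
  · intro a b h
    simpa using h
  · rw [disjoint_left]
    intro y hy hy'
    simp only [im, lo, hi, mem_image, mem_filter, mem_range] at hy hy'
    obtain ⟨a, ⟨ha, _⟩, rfl⟩ := hy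
    obtain ⟨b, _, hb⟩ := hy'
    have : a / 2 ^ i < 2 ^ (δ - i) := by
      rw [Nat.div_lt_iff_lt_mul hpos, ← hpow]; exact ha
    omega

lemma im_top {δ : ℕ} {A : Finset ℕ} (hA : A ⊆ range (2 ^ δ)) (hne : A.Nonempty) :
    (im δ A).card = 1 := by
  rw [card_eq_one]
  refine ⟨0, ?_⟩
  ext y
  simp only [im, mem_image, mem_singleton]
  constructor
  · rintro ⟨a, ha, rfl⟩
    exact Nat.div_eq_of_lt (mem_range.1 (hA ha))
  · rintro rfl
    obtain ⟨a, ha⟩ := hne
    exact ⟨a, ha, Nat.div_eq_of_lt (mem_range.1 (hA ha))⟩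

lemma lo_subset (δ : ℕ) (A : Finset ℕ) : lo δ A ⊆ range (2 ^ δ) := filter_subset _ _

lemma hi_subset (δ : ℕ) (A : Finset ℕ) : hi δ A ⊆ range (2 ^ δ) := filter_subset _ _

/-- the summand in the generating function -/
noncomputable def g (δ : ℕ) (A : Finset ℕ) : ℝ := if A = ∅ then 0 else (1 / 4) ^ w δ A

lemma g_nonneg (δ : ℕ) (A : Finset ℕ) : 0 ≤ g δ A := by
  unfold g; split_ifs <;> positivity

lemma g_succ_le {δ : ℕ} {A : Finset ℕ} (hA : A ⊆ range (2 ^ (δ + 1))) :
    g (δ + 1) A ≤ g δ (lo δ A) * (if hi δ A = ∅ then 1 else 0) +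
      (if lo δ A = ∅ then 1 else 0) * g δ (hi δ A) +
      g δ (lo δ A) * g δ (hi δ A) * (1 / 4) ^ (δ + 1) := by
  by_cases hne : A = ∅
  · have : g (δ + 1) A = 0 := by simp [g, hne]
    rw [this]
    have := g_nonneg δ (lo δ A)
    have := g_nonneg δ (hi δ A)
    split_ifs <;> positivity
  have hg : g (δ + 1) A = (1 / 4) ^ w (δ + 1) A := by simp [g, hne]
  have hw : w (δ + 1) A = ∑ i ∈ range (δ + 1),
      ((im i (lo δ A)).card + (im i (hi δ A)).card - 1) := by
    unfold w
    refine sum_congr rfl fun i hi' => ?_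
    rw [im_card_split (by have := mem_range.1 hi'; omega) hA]
  by_cases h1 : lo δ A = ∅ <;> by_cases h2 : hi δ A = ∅
  · exfalso
    have := im_card_split (le_refl δ) hA
    rw [h1, h2] at this
    simp only [im, image_empty, card_empty, add_zero, card_eq_zero, image_eq_empty] at this
    exact hne this
  · have hw2 : w (δ + 1) A = w δ (hi δ A) := by
      rw [hw, sum_range_succ]
      unfold w
      rw [h1]
      have := im_top (hi_subset δ A) (nonempty_iff_ne_empty.2 h2)
      simp only [im, image_empty, card_empty, zero_add] at this ⊢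
      omega
    rw [hg, hw2, h1]
    simp [g, h2]
  · have hw2 : w (δ + 1) A = w δ (lo δ A) := by
      rw [hw, sum_range_succ]
      unfold w
      rw [h2]
      have := im_top (lo_subset δ A) (nonempty_iff_ne_empty.2 h1)
      simp only [im, image_empty, card_empty, add_zero] at this ⊢
      omega
    rw [hg, hw2, h2]
    simp [g, h1]
  · have hw2 : w (δ + 1) A = w δ (lo δ A) + w δ (hi δ A) + (δ + 1) := by
      rw [hw, sum_range_succ]
      rw [im_top (hi_subset δ A) (nonempty_iff_ne_empty.2 h2),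
        im_top (lo_subset δ A) (nonempty_iff_ne_empty.2 h1)]
      unfold w
      have : ∑ i ∈ range δ, ((im i (lo δ A)).card + (im i (hi δ A)).card - 1) =
          ∑ i ∈ range δ, (((im i (lo δ A)).card - 1) + ((im i (hi δ A)).card - 1) + 1) := by
        refine sum_congr rfl fun i _ => ?_
        have h4 : 0 < (im i (lo δ A)).card := card_pos.2 (im_nonempty (nonempty_iff_ne_empty.2 h1))
        have h5 : 0 < (im i (hi δ A)).card := card_pos.2 (im_nonempty (nonempty_iff_ne_empty.2 h2))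
        omega
      rw [this, sum_add_distrib, sum_add_distrib]
      simp
      ring
    rw [hg, hw2]
    simp only [g, h1, h2, if_false, mul_zero, zero_mul, zero_add]
    rw [pow_add, pow_add]

lemma sum_g_le (δ : ℕ) : ∑ A ∈ (range (2 ^ δ)).powerset, g δ A ≤ 2 ^ (δ + 1) - 1 := by
  induction δ with
  | zero =>
    have : (range (2 ^ 0)).powerset = {∅, {0}} := by decide
    rw [this, sum_insert (by decide), sum_singleton]
    simp [g, w]
    norm_num
  | succ δ ih =>
    set P := (range (2 ^ δ)).powerset with hP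
    set s := ∑ A ∈ P, g δ A with hs
    have hs0 : 0 ≤ s := sum_nonneg fun A _ => g_nonneg δ A
    let G : Finset ℕ × Finset ℕ → ℝ := fun p =>
      g δ p.1 * (if p.2 = ∅ then 1 else 0) + (if p.1 = ∅ then 1 else 0) * g δ p.2 +
        g δ p.1 * g δ p.2 * (1 / 4) ^ (δ + 1)
    have hG0 : ∀ p, 0 ≤ G p := by
      intro p
      have h1 := g_nonneg δ p.1
      have h2 := g_nonneg δ p.2
      simp only [G]
      split_ifs <;> positivity
    let φ : Finset ℕ → Finset ℕ × Finset ℕ := fun A => (lo δ A, hi δ A)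
    have hφ : Set.InjOn φ ((range (2 ^ (δ + 1))).powerset : Set (Finset ℕ)) := by
      intro A hA B hB hAB
      simp only [coe_powerset, Set.mem_preimage, Set.mem_powerset_iff, coe_subset] at hA hB
      have h1 : lo δ A = lo δ B := congrArg Prod.fst hAB
      have h2 : hi δ A = hi δ B := congrArg Prod.snd hAB
      have key : ∀ y < 2 ^ (δ + 1), (y ∈ A ↔ y ∈ B) := by
        intro y hy
        by_cases h : y < 2 ^ δ
        · have := congrArg (fun Z => y ∈ Z) h1
          simpa [lo, h] using this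
        · have := congrArg (fun Z => (y - 2 ^ δ) ∈ Z) h2
          have h3 : y - 2 ^ δ < 2 ^ δ := by rw [pow_succ] at hy; omega
          have h4 : y - 2 ^ δ + 2 ^ δ = y := by omega
          simpa [hi, h3, h4] using this
      ext y
      constructor
      · intro hy; exact (key y (mem_range.1 (hA hy))).1 hy
      · intro hy; exact (key y (mem_range.1 (hB hy))).2 hy
    have h1 : ∑ A ∈ (range (2 ^ (δ + 1))).powerset, g (δ + 1) A ≤ ∑ p ∈ P ×ˢ P, G p := by
      calc ∑ A ∈ (range (2 ^ (δ + 1))).powerset, g (δ + 1) A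
          ≤ ∑ A ∈ (range (2 ^ (δ + 1))).powerset, G (φ A) :=
            sum_le_sum fun A hA => g_succ_le (mem_powerset.1 hA)
        _ = ∑ p ∈ ((range (2 ^ (δ + 1))).powerset).image φ, G p := by
            rw [sum_image hφ]
        _ ≤ ∑ p ∈ P ×ˢ P, G p := by
            refine sum_le_sum_of_subset_of_nonneg ?_ fun p _ _ => hG0 p
            intro p hp
            rw [mem_image] at hp
            obtain ⟨A, _, rfl⟩ := hp
            rw [mem_product, mem_powerset, mem_powerset]
            exact ⟨lo_subset δ A, hi_subset δ A⟩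
    have hem : ∑ B ∈ P, (if B = ∅ then (1 : ℝ) else 0) = 1 := by
      rw [sum_ite_eq' P ∅]
      rw [if_pos (by rw [hP]; exact empty_mem_powerset _)]
    have h2 : ∑ p ∈ P ×ˢ P, G p = s + s + s * s * (1 / 4) ^ (δ + 1) := by
      simp only [G]
      rw [sum_add_distrib, sum_add_distrib]
      congr 1
      · congr 1
        · rw [sum_product]
          simp only [← mul_sum, hem, mul_one, hs]
        · rw [sum_product]
          have e := (sum_mul_sum P P (fun x => if x = ∅ then (1 : ℝ) else 0) (g δ)).symm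
          rw [hem, one_mul] at e
          exact e
      · rw [← sum_mul, hs, sum_mul_sum, sum_product]
    rw [h2] at h1
    refine h1.trans ?_
    have h3 : s * s * (1 / 4) ^ (δ + 1) ≤ 1 := by
      have hs1 : s ≤ 2 ^ (δ + 1) := by linarith
      calc s * s * (1 / 4) ^ (δ + 1) ≤ 2 ^ (δ + 1) * 2 ^ (δ + 1) * (1 / 4) ^ (δ + 1) := by
            gcongr
        _ = 1 := by
            rw [← mul_pow, ← mul_pow]; norm_num
    have h4 : (2 : ℝ) ^ (δ + 1 + 1) = 2 * 2 ^ (δ + 1) := by ring
    rw [h4]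
    linarith

lemma card_le_of_w (δ K : ℕ) :
    ((range (2 ^ δ)).powerset.filter (fun A => A ≠ ∅ ∧ w δ A ≤ K)).card ≤ 2 ^ (δ + 1) * 4 ^ K := by
  have h1 : (((range (2 ^ δ)).powerset.filter (fun A => A ≠ ∅ ∧ w δ A ≤ K)).card : ℝ) *
      (1 / 4) ^ K ≤ 2 ^ (δ + 1) := by
    calc (((range (2 ^ δ)).powerset.filter (fun A => A ≠ ∅ ∧ w δ A ≤ K)).card : ℝ) * (1 / 4) ^ K
        = ∑ A ∈ (range (2 ^ δ)).powerset.filter (fun A => A ≠ ∅ ∧ w δ A ≤ K),
            ((1 / 4 : ℝ)) ^ K := by
          rw [sum_const, nsmul_eq_mul]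
      _ ≤ ∑ A ∈ (range (2 ^ δ)).powerset.filter (fun A => A ≠ ∅ ∧ w δ A ≤ K), g δ A := by
          refine sum_le_sum fun A hA => ?_
          rw [mem_filter] at hA
          simp only [g, hA.2.1, if_false]
          exact pow_le_pow_of_le_one (by norm_num) (by norm_num) hA.2.2
      _ ≤ ∑ A ∈ (range (2 ^ δ)).powerset, g δ A :=
          sum_le_sum_of_subset_of_nonneg (filter_subset _ _) fun A _ _ => g_nonneg δ A
      _ ≤ 2 ^ (δ + 1) := by linarith [sum_g_le δ]
  have h2 : (((range (2 ^ δ)).powerset.filter (fun A => A ≠ ∅ ∧ w δ A ≤ K)).card : ℝ) ≤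
      2 ^ (δ + 1) * 4 ^ K := by
    have h4 : (0 : ℝ) < 4 ^ K := by positivity
    have h5 : (1 / 4 : ℝ) ^ K * 4 ^ K = 1 := by rw [← mul_pow]; norm_num
    calc (((range (2 ^ δ)).powerset.filter (fun A => A ≠ ∅ ∧ w δ A ≤ K)).card : ℝ)
        = (((range (2 ^ δ)).powerset.filter (fun A => A ≠ ∅ ∧ w δ A ≤ K)).card : ℝ) *
            ((1 / 4) ^ K * 4 ^ K) := by rw [h5, mul_one]
      _ = (((range (2 ^ δ)).powerset.filter (fun A => A ≠ ∅ ∧ w δ A ≤ K)).card : ℝ) *
            (1 / 4) ^ K * 4 ^ K := by ring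
      _ ≤ 2 ^ (δ + 1) * 4 ^ K := by gcongr
  exact_mod_cast h2

/-- The classes: pairs (depth, set of nodes of that depth) of bounded weight. -/
def Cls (H K : ℕ) : Finset (ℕ × Finset ℕ) :=
  (range (H + 1)).biUnion fun δ =>
    ((range (2 ^ δ)).powerset.filter (fun A => A ≠ ∅ ∧ w δ A ≤ K)).image (fun A => (δ, A))

lemma mem_Cls {H K : ℕ} {c : ℕ × Finset ℕ} : c ∈ Cls H K ↔
    c.1 ≤ H ∧ c.2 ⊆ range (2 ^ c.1) ∧ c.2.Nonempty ∧ w c.1 c.2 ≤ K := by
  unfold Cls
  simp only [mem_biUnion, mem_range, mem_image, mem_filter, mem_powerset, nonempty_iff_ne_empty]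
  constructor
  · rintro ⟨δ, hδ, A, ⟨h1, h2, h3⟩, rfl⟩
    exact ⟨by simpa using Nat.lt_succ_iff.1 hδ, h1, h2, h3⟩
  · rintro ⟨h1, h2, h3, h4⟩
    exact ⟨c.1, Nat.lt_succ_iff.2 h1, c.2, ⟨h2, h3, h4⟩, rfl⟩

lemma card_Cls (H K : ℕ) : (Cls H K).card ≤ 2 ^ (H + 2) * 4 ^ K := by
  unfold Cls
  refine card_biUnion_le.trans ?_
  calc ∑ δ ∈ range (H + 1), (((range (2 ^ δ)).powerset.filter
        (fun A => A ≠ ∅ ∧ w δ A ≤ K)).image (fun A => (δ, A))).card
      ≤ ∑ δ ∈ range (H + 1), 2 ^ (δ + 1) * 4 ^ K :=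
        sum_le_sum fun δ _ => card_image_le.trans (card_le_of_w δ K)
    _ = (∑ δ ∈ range (H + 1), 2 ^ (δ + 1)) * 4 ^ K := by rw [sum_mul]
    _ ≤ 2 ^ (H + 2) * 4 ^ K := by
        refine Nat.mul_le_mul_right _ ?_
        have : ∀ m : ℕ, ∑ δ ∈ range m, 2 ^ (δ + 1) ≤ 2 ^ (m + 1) := by
          intro m
          induction m with
          | zero => simp
          | succ m ih =>
            rw [sum_range_succ]
            calc ∑ δ ∈ range m, 2 ^ (δ + 1) + 2 ^ (m + 1) ≤ 2 ^ (m + 1) + 2 ^ (m + 1) := by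
                  gcongr
              _ = 2 ^ (m + 1 + 1) := by ring
        exact this (H + 1)

lemma w_full (δ : ℕ) : w δ (range (2 ^ δ)) ≤ 2 * 2 ^ δ := by
  have h : ∀ i ∈ range δ, (im i (range (2 ^ δ))).card - 1 ≤ 2 ^ (δ - i) := by
    intro i hi'
    have : im i (range (2 ^ δ)) ⊆ range (2 ^ (δ - i)) := by
      intro y hy
      simp only [im, mem_image, mem_range] at hy
      obtain ⟨a, ha, rfl⟩ := hy
      rw [mem_range, Nat.div_lt_iff_lt_mul (by positivity), ← pow_add]
      have := mem_range.1 hi'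
      have h2 : δ - i + i = δ := by omega
      rw [h2]; exact ha
    have := card_le_card this
    rw [card_range] at this
    omega
  unfold w
  refine (sum_le_sum h).trans ?_
  clear h
  induction δ with
  | zero => simp
  | succ δ ih =>
    rw [sum_range_succ']
    have : ∀ i, δ + 1 - (i + 1) = δ - i := by intro i; omega
    simp only [this, Nat.sub_zero]
    calc ∑ k ∈ range δ, 2 ^ (δ - k) + 2 ^ (δ + 1) ≤ 2 * 2 ^ δ + 2 ^ (δ + 1) := by gcongr
      _ = 2 * 2 ^ (δ + 1) := by ring

end Pool.Agent.K3h91.OSC
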